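import Pool.Agent.W682.TW.Stm2

/-!
# Project TW, part GCA: assembly for G-closures
-/

set_option autoImplicit false

open scoped BigOperators Topology
open MeasureTheory Pool.Agent.W682.TW

namespace Pool.Agent.W789.TW.GCA

variable {m : ℕ}

lemma gr_periodic (u : (Fin 2 → ℝ) → (Fin m → ℝ)) (hu : Adm u) (x : Fin 2 → ℝ) (z : Fin 2 → ℤ) :
    gr u (x + fun i => (z i : ℝ)) = gr u x := by
  have h1 : (fun y => u (y + fun i => (z i : ℝ))) = u := by
    funext y; exact hu.2 y z
  have h2 : fderiv ℝ u (x + fun i => (z i : ℝ)) = fderiv ℝ u x := by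
    rw [← fderiv_comp_add_right (fun i => (z i : ℝ)), h1]
  unfold gr
  rw [h2]

lemma gr_continuous (u : (Fin 2 → ℝ) → (Fin m → ℝ)) (hu : Adm u) : Continuous (gr u) := by
  have h1 : Continuous (fderiv ℝ u) := hu.1.continuous_fderiv (by simp)
  have h2 : ∀ (i : Fin 2) (α : Fin m),
      Continuous (fun x => fderiv ℝ u x (Pi.single i (1 : ℝ)) α) := by
    intro i α
    have h3 : Continuous (fun x => fderiv ℝ u x (Pi.single i (1 : ℝ))) :=
      h1.clm_apply continuous_const
    exact (continuous_apply α).comp h3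
  exact continuous_pi fun i => continuous_pi fun α => h2 i α

lemma lin_continuous (L : Mt m →ₗ[ℝ] Mt m) : Continuous L :=
  LinearMap.continuous_of_finiteDimensional L

lemma tp_continuous (L : Mt m →ₗ[ℝ] Mt m) : Continuous (fun A : Mt m => tp A (L A)) := by
  unfold tp
  exact (continuous_id.matrix_mul (lin_continuous L).matrix_transpose).matrix_trace

lemma volume_cube : volume cube = 1 := by
  unfold cube
  rw [volume_pi_pi]
  simp

theorem main : S_GCA := by
  rintro ⟨m, L₁, L₂, g, F, u, hm, hL₁, hL₂, hR, hg₁, hg₂, hu, hint⟩ hLam hEff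
  have hFc : Continuous (fun x => F + gr u x) := continuous_const.add (gr_continuous u hu)
  have hc₁ : Continuous (fun x => tp (F + gr u x) (L₁ (F + gr u x))) :=
    (tp_continuous L₁).comp hFc
  have hc₂ : Continuous (fun x => tp (F + gr u x) (L₂ (F + gr u x))) :=
    (tp_continuous L₂).comp hFc
  obtain ⟨S, hS⟩ : ∃ S : Set (Fin 2 → ℝ), S =
    {x | tp (F + gr u x) (L₁ (F + gr u x)) ≤ tp (F + gr u x) (L₂ (F + gr u x))} := ⟨_, rfl⟩
  have hSmem : ∀ x, x ∈ S ↔
      tp (F + gr u x) (L₁ (F + gr u x)) ≤ tp (F + gr u x) (L₂ (F + gr u x)) := by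
    intro x
    rw [hS]
    exact Iff.rfl
  have hmic : Micro S := by
    constructor
    · rw [hS]
      exact (isClosed_le hc₁ hc₂).measurableSet
    · intro x z
      rw [hSmem, hSmem, gr_periodic u hu]
  obtain ⟨Ls, hLs, hmin⟩ := hEff m L₁ L₂ S hL₁ hL₂ hmic
  have hle : tp F (Ls F) < g F := by
    refine lt_of_le_of_lt (hmin F u hu) ?_
    have e : (fun x => tp (F + gr u x) (loc L₁ L₂ S x (F + gr u x))) =
        fun x => min (tp (F + gr u x) (L₁ (F + gr u x))) (tp (F + gr u x) (L₂ (F + gr u x))) := by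
      funext x
      by_cases hx : x ∈ S
      · have h1 : loc L₁ L₂ S x = L₁ := by
          unfold loc
          exact if_pos hx
        rw [h1, min_eq_left ((hSmem x).1 hx)]
      · have h1 : loc L₁ L₂ S x = L₂ := by
          unfold loc
          exact if_neg hx
        have h2 : tp (F + gr u x) (L₂ (F + gr u x)) < tp (F + gr u x) (L₁ (F + gr u x)) :=
          not_le.1 fun h => hx ((hSmem x).2 h)
        rw [h1, min_eq_right h2.le]
    rw [e]
    exact hint
  refine ⟨m, L₁, L₂, vf S, hm, ENNReal.toReal_nonneg, ?_, hL₁, hL₂, ?_⟩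
  · unfold vf
    have h1 : volume (S ∩ cube) ≤ 1 := by
      rw [← volume_cube]
      exact measure_mono Set.inter_subset_right
    have h2 := ENNReal.toReal_mono ENNReal.one_ne_top h1
    rwa [ENNReal.toReal_one] at h2
  · intro heq
    have h1 : Ls ∈ Gf L₁ L₂ (vf S) :=
      ⟨fun _ => Ls, fun _ => ⟨S, hmic, rfl, hLs⟩, fun E => tendsto_const_nhds⟩
    rw [heq] at h1
    exact absurd (hLam m L₁ L₂ g (vf S) Ls hR hg₁ hg₂ h1 F) (not_le.2 hle)

end Pool.Agent.W789.TW.GCA
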