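import Pool.Agent.W682.TW.Stm

/-!
# Project TW, part RKA: assembly of rank-one convexity
-/

set_option autoImplicit false

open scoped BigOperators
open MeasureTheory Pool.Agent.W682.TW

namespace Pool.Agent.W789.TW.RKA

/-- the one-dimensional assembly -/
lemma line (hLoc : S_LOC) (θ u w S G : ℝ → ℝ) (s k : ℝ) (hs : 0 ≤ s)
    (hθ : Continuous θ) (hu : Continuous u) (hw : Continuous w) (hS : Continuous S)
    (hG1 : ∀ t, -s ≤ θ t → θ t ≤ 1 + s → G t = max (u t) (w t))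
    (hG2 : ∀ t, ¬ (-s ≤ θ t ∧ θ t ≤ 1 + s) → G t = w t)
    (hb : ∀ t, (θ t = -s ∨ θ t = 1 + s) → u t < w t)
    (h1 : ∀ l r : ℝ, (∀ t ∈ Set.Ioo l r, -s ≤ θ t ∧ θ t ≤ 1 + s ∧ w t ≤ u t) →
      ConvexOn ℝ (Set.Ioo l r) (fun t => u t + k * S t))
    (h4 : ConvexOn ℝ Set.univ (fun t => w t + k * S t)) :
    ConvexOn ℝ Set.univ (fun t => G t + k * S t) := by
  classical
  have hGe : G = fun t => if -s ≤ θ t ∧ θ t ≤ 1 + s then max (u t) (w t) else w t := by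
    funext t
    split_ifs with h
    · exact hG1 t h.1 h.2
    · exact hG2 t h
  have hGc : Continuous G := by
    rw [hGe]
    apply Continuous.if _ (hu.max hw) hw
    intro t ht
    have e : {t | -s ≤ θ t ∧ θ t ≤ 1 + s} = θ ⁻¹' (Set.Icc (-s) (1 + s)) := by
      ext x; simp [Set.mem_Icc]
    rw [e] at ht
    have h2 := hθ.frontier_preimage_subset _ ht
    rw [frontier_Icc (by linarith)] at h2
    have h3 : θ t = -s ∨ θ t = 1 + s := by simpa using h2
    exact max_eq_right (hb t h3).le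
  have hwG : ∀ t, w t ≤ G t := by
    intro t
    by_cases h : -s ≤ θ t ∧ θ t ≤ 1 + s
    · rw [hG1 t h.1 h.2]; exact le_max_right _ _
    · rw [hG2 t h]
  apply hLoc _ (hGc.add (continuous_const.mul hS))
  intro t₀
  by_cases hc : (-s < θ t₀ ∧ θ t₀ < 1 + s) ∧ w t₀ < u t₀
  · have hev : ∀ᶠ t in nhds t₀, (-s < θ t ∧ θ t < 1 + s) ∧ w t < u t := by
      have e1 : ∀ᶠ t in nhds t₀, -s < θ t := hθ.continuousAt.eventually_const_lt hc.1.1
      have e2 : ∀ᶠ t in nhds t₀, θ t < 1 + s := hθ.continuousAt.eventually_lt_const hc.1.2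
      have e3 : ∀ᶠ t in nhds t₀, w t < u t :=
        hw.continuousAt.eventually_lt hu.continuousAt hc.2
      filter_upwards [e1, e2, e3] with t a b c
      exact ⟨⟨a, b⟩, c⟩
    obtain ⟨r, hr, hball⟩ := Metric.eventually_nhds_iff_ball.1 hev
    rw [Real.ball_eq_Ioo] at hball
    refine ⟨fun t => u t + k * S t, r, hr, h1 _ _ ?_, ?_, ?_⟩
    · intro t ht
      obtain ⟨⟨a, b⟩, c⟩ := hball t ht
      exact ⟨a.le, b.le, c.le⟩
    · show u t₀ + k * S t₀ = G t₀ + k * S t₀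
      rw [hG1 t₀ hc.1.1.le hc.1.2.le, max_eq_left hc.2.le]
    · intro t ht
      obtain ⟨⟨a, b⟩, c⟩ := hball t ht
      show u t + k * S t ≤ G t + k * S t
      rw [hG1 t a.le b.le, max_eq_left c.le]
  · refine ⟨fun t => w t + k * S t, 1, one_pos, h4.subset (Set.subset_univ _) (convex_Ioo _ _), ?_, ?_⟩
    · show w t₀ + k * S t₀ = G t₀ + k * S t₀
      have : G t₀ = w t₀ := by
        by_cases h : -s ≤ θ t₀ ∧ θ t₀ ≤ 1 + s
        · rw [hG1 t₀ h.1 h.2]
          apply max_eq_right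
          by_contra h5
          push Not at h5
          apply hc
          refine ⟨⟨lt_of_le_of_ne h.1 ?_, lt_of_le_of_ne h.2 ?_⟩, h5⟩
          · intro h6
            exact absurd (hb t₀ (Or.inl h6.symm)) (not_lt.2 h5.le)
          · intro h6
            exact absurd (hb t₀ (Or.inr h6)) (not_lt.2 h5.le)
        · exact hG2 t₀ h
      rw [this]
    · intro t _
      show w t + k * S t ≤ G t + k * S t
      have := hwG t
      linarith

/-- the bounded set -/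
def DD (n : ℕ) (R : ℝ) : Set (St n) :=
  {x | -(1 / (n : ℝ) ^ 2) ≤ x.1 ∧ x.1 ≤ 1 + 1 / (n : ℝ) ^ 2 ∧ W682.TW.sq x.2.1 ≤ R ∧ W682.TW.sq x.2.2 ≤ R}

lemma coord_le {n : ℕ} (v : Fin n → ℝ) (R : ℝ) (h : W682.TW.sq v ≤ R) : ‖v‖ ≤ Real.sqrt |R| := by
  apply (pi_norm_le_iff_of_nonneg (Real.sqrt_nonneg _)).2
  intro i
  rw [Real.norm_eq_abs]
  apply Real.abs_le_sqrt
  unfold W682.TW.sq at h
  have := Finset.single_le_sum (f := fun i => v i ^ 2) (fun i _ => sq_nonneg _) (Finset.mem_univ i)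
  exact (this.trans h).trans (le_abs_self R)

lemma bounded_DD (n : ℕ) (R : ℝ) : Bornology.IsBounded (DD n R) := by
  rw [isBounded_iff_forall_norm_le]
  refine ⟨max (1 + 1 / (n : ℝ) ^ 2) (Real.sqrt |R|), ?_⟩
  rintro x ⟨h1, h2, h3, h4⟩
  have hp : 0 ≤ 1 / (n : ℝ) ^ 2 := by positivity
  rw [Prod.norm_def, Prod.norm_def]
  apply max_le
  · refine le_trans ?_ (le_max_left _ _)
    rw [Real.norm_eq_abs]
    exact abs_le.2 ⟨by linarith, h2⟩
  · refine le_trans ?_ (le_max_right _ _)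
    exact max_le (coord_le _ _ h3) (coord_le _ _ h4)

lemma continuous_g4 (n : ℕ) (Mc : ℝ) : Continuous (g4 n Mc) := by
  unfold g4 W682.TW.sq
  fun_prop

lemma gg_in (n : ℕ) (σ : ℕ → ℝ) (ε Mc : ℝ) (x : St n) (h1 : -(1 / (n : ℝ) ^ 2) ≤ x.1)
    (h2 : x.1 ≤ 1 + 1 / (n : ℝ) ^ 2) : gg n σ ε Mc x = max (g1 n σ ε x) (g4 n Mc x) := by
  unfold gg
  exact if_pos ⟨h1, h2⟩

lemma gg_out (n : ℕ) (σ : ℕ → ℝ) (ε Mc : ℝ) (x : St n)
    (h : ¬ (-(1 / (n : ℝ) ^ 2) ≤ x.1 ∧ x.1 ≤ 1 + 1 / (n : ℝ) ^ 2)) :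
    gg n σ ε Mc x = g4 n Mc x := by
  unfold gg
  exact if_neg h

theorem main (hL : S_LIN) (hLoc : S_LOC) (hRC : S_RC) (hG : S_G1) (hDom : S_DOM) (hRC4 : S_RC4)
    (hNL : S_NL) : S_RKA := by
  intro n m e σ ε Mc c hn hσ hε hε2 hMc
  have hnr : (n : ℝ) = 16384 := by rw [hn]; norm_num
  have hMc2 : 2 * (n : ℝ) ^ 2 ≤ Mc := by
    refine le_trans ?_ hMc
    rw [hnr]
    norm_num
  obtain ⟨hGc, hGd⟩ := hG n σ ε hn hσ hε hε2
  obtain ⟨hD1, R, hD2⟩ := hDom n σ ε Mc hn hσ hε hε2 hMc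
  obtain ⟨k1, hk1⟩ := hRC n m e (g1 n σ ε) (DD n R) (2 * ε) hGc (bounded_DD n R) (by positivity)
    (fun x hx ι => hGd x hx.1 hx.2.1 ι)
  obtain ⟨k4, hk4⟩ := hRC4 n m e Mc hMc2
  obtain ⟨hL1, -, -, -, hL5, hL6⟩ := hL n m e
  clear hn hnr hMc2 hG hDom hL
  refine ⟨max k1 k4, ?_⟩
  intro k hk A v β
  have hkk1 : k1 ≤ k := (le_max_left _ _).trans hk
  have hkk4 : k4 ≤ k := (le_max_right _ _).trans hk
  set X := Matrix.vecMulVec v β with hX
  have hxc : Continuous (fun t : ℝ => st e (A + t • X)) := by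
    have e1 : (fun t : ℝ => st e (A + t • X)) = fun t : ℝ => st e A + t • st e X := by
      funext t; exact hL1 A X t
    rw [e1]
    fun_prop
  have hSc : Continuous (fun t : ℝ => SO e (A + t • X)) := by
    have e2 : Continuous (fun t : ℝ => A + t • X) := by fun_prop
    exact hL6.comp e2
  have hp : 0 ≤ 1 / (n : ℝ) ^ 2 := by positivity
  have hmain := line hLoc (fun t => (st e (A + t • X)).1) (fun t => g1 n σ ε (st e (A + t • X)))
    (fun t => g4 n Mc (st e (A + t • X))) (fun t => SO e (A + t • X))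
    (fun t => gg n σ ε Mc (st e (A + t • X))) (1 / (n : ℝ) ^ 2) k hp
    (continuous_fst.comp hxc) (hGc.continuous.comp hxc) ((continuous_g4 n Mc).comp hxc) hSc
    (fun t h1 h2 => gg_in n σ ε Mc _ h1 h2) (fun t h => gg_out n σ ε Mc _ h)
    (fun t h => hD1 _ h)
    (fun l r h => hk1 k hkk1 A v β l r (fun t ht => by
      obtain ⟨a, b, c⟩ := h t ht
      obtain ⟨d1, d2⟩ := hD2 _ a b c
      exact ⟨a, b, d1, d2⟩))
    (hk4 k hkk4 A v β)
  obtain ⟨p, q, hpq⟩ := hNL n m e c A v β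
  have hlin : ConvexOn ℝ Set.univ (fun t : ℝ => NN e c (A + t • X)) := by
    have e3 : (fun t : ℝ => NN e c (A + t • X)) = fun t : ℝ => p + q * t := by
      funext t; exact hpq t
    rw [e3]
    refine ⟨convex_univ, ?_⟩
    intro x _ y _ a b _ _ hab
    simp only [smul_eq_mul]
    apply le_of_eq
    have : p = (a + b) * p := by rw [hab, one_mul]
    nlinarith [this]
  exact hmain.add hlin

end Pool.Agent.W789.TW.RKA
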